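import Mathlib
import Pool.Agent.P.MP_2ce53a_nt.Sound
import Pool.Agent.P.MP_2ce53a_nt.P4x6.Data

namespace Pool.Agent.P.MP_2ce53a_nt.P4x6

open Pool.Agent.P.MP_2ce53a_nt

theorem c0 : chk ctx (.run 6 0x302000120000000001000001001100000060110000001011000041500300003210030030101004000003300000302010020000009001000000b0110030200012000000d001000001501100003020030030101004000000301100000000110000033000004030100200000050010040301002000001100100403020020000006001003000201400000100110040301002000000701100000110210040302002000000600100403010020000005001004030100200000110010030002014000000401100302020040000015021000000e021000000a021000003301000000310000000028003000010100300302000120000010001000000f0110000006011000000201100301020040000030000000001100300302000120000011001004030100200000170010000015021000000900300302000040000030000003020001200000040010030102004000001201100000100110000008011000003000000302000120000007001003020001200000120010030200012000001600100302000120000010001003000100400000320000030200012000000100100301020040000009011000000601100000030110000030000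
 (.loop 0x1210030000604008000011f00300302010040000032000 ⟨⟨⟨2, 1, 2137450604396542⟩, ⟨1, 2, 2⟩, ⟨2, 2137450604396542, 1⟩⟩, 3, false, 1, 0, 0, 0⟩
 (.loop 0x419003000042c003000070b00800302010040000032000 ⟨⟨⟨2137450604396543, 2, 2137450604396542⟩, ⟨2137450604396542, 1, 2⟩, ⟨2, 2, 1⟩⟩, 3, false, 0, 0, 0, 0⟩
 (.loop 0x20030000804008000001600300302010040000032000 ⟨⟨⟨2, 1, 2137450604396542⟩, ⟨1, 2, 2⟩, ⟨2, 2137450604396542, 1⟩⟩, 3, false, 1, 0, 0, 0⟩
 (.loop 0x5280030000501003000090b00800302010040000032000 ⟨⟨⟨2137450604396543, 2, 2137450604396542⟩, ⟨2137450604396542, 1, 2⟩, ⟨2, 2, 1⟩⟩, 3, false, 0, 0, 0, 0⟩
 (.run 4 0x460000c0b00300200000140000c090030000000046002000001400200000140000c0000300000000460020000014000000004600000000460020000014002000001400200000040000a110030000a1200300200000140000a150030000a16003002000001400200000140000b020030000b0100300200000140000b030030000b0000300200000140020000014002000000400000000c60000409003000051c0030030000014000040b00300000000c600000000c60030000014000051f00300000000c600000000c60030000014003000001400000000c6000042100300005140030030000014000042300300000000c600000000c60030000014000051700300000000c600000000c60030000014003000001400000000c600000000c600000000c6003000001400000000c600009000030000304003003000001400000000c60000300003000070000300300000140030000014003000000400000000c600000000c600000000c60030000014000010b00300000000c6000010c0030030000014000001f00300000000c6000002000300300000140030000014000011300300000000c60000114003003000001400000000c6000080000300000000c6003000001400000000c6000022700300000000c600300000140030000014000002d00300000000c6000002e003003000001400000000c6000020000300000000c6003000001400000000c6000060000300000000c6003000001400300000140030000004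
 .nil)))))) 0 14 = true := by decide +kernel

theorem m0 {n : ℕ} (H : Hyp ctx n) (h : ∀ c < 0, Emp ctx n c) : ∀ c < 14, Emp ctx n c :=
  (chk_sound H c0
  h)

end Pool.Agent.P.MP_2ce53a_nt.P4x6
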