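import Mathlib
import Pool.Agent.P.MP_2ce53a_nt.Prim
import Pool.Agent.P.MP_2ce53a_nt.P4x6.C0

namespace Pool.Agent.P.MP_2ce53a_nt.P4x6

open Pool.Agent.P.MP_2ce53a_nt

theorem root : cellOf ctx 13 = ⟨0, 0, 0, 1, 0, 0, 1, 0, 1⟩ := by
  have h : cword (ctx.ceT.get (Nat.shiftRight 13 6)) 13 = 39402006196394479212279040100640937041489525912620828916095114244346177944595303527385353373313793410467522871820288 := by decide +kernel
  rw [cellOf, h]
  rfl

theorem universal : Universal 4 6 :=
  universal_of (C := ctx) (ps := [2, 3]) (N := 13) (by decide +kernel) F2_pos (by decide +kernel)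
    (by decide +kernel) (fun _ hl h => nb2 hl (h 2 (by decide)))
    (fun n => ex2 (2 + 12 * n) (by omega)) root
    fun _ H => (m0 H (fun _ h => absurd h (Nat.not_lt_zero _)))

end Pool.Agent.P.MP_2ce53a_nt.P4x6
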